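import Mathlib

set_option autoImplicit false

/-!
# MP_6c466c_co: the fractional sum of dilates can be smaller than the fractional sumset

There is a finite set `S` of integers with `|S + 2 S| < |S + S|`; its indicator function is a
fractional dilate `α` with `‖α + 2 α‖ < ‖α + α‖`. The set consists of the odd numbers `2 x + 1` in
`[0, 1200]` with `x mod 15` in `{0, 1, 2, 5, 7, 10, 12}` and of the six even numbers
`0, 16, 48, 1140, 1156, 1188`.
-/

open Finset
open scoped ENNReal Pointwise Topology

namespace Pool.Agent.Results.MP_6c466c_co.SmallerDilateSum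

/-- The convolution `(α + k α)(i) = ∑_{j + k l = i} α(j) α(l)`, the sum over all pairs `(j, l)` of
integers with `j + k l = i` (that is `j = i - k l`). -/
noncomputable def conv (k : ℤ) (α : ℤ → ℝ) (i : ℤ) : ℝ := ∑' l : ℤ, α (i - k * l) * α l

/-- The size `‖α + k α‖ = inf_{0 < p < 1} ∑_i ((α + k α)(i))^p`, an element of `[0, ∞]`. -/
noncomputable def dnorm (k : ℤ) (α : ℤ → ℝ) : ℝ≥0∞ :=
  ⨅ p ∈ Set.Ioo (0 : ℝ) 1, ∑' i : ℤ, ENNReal.ofReal (conv k α i) ^ p

/-- `orF L f` is the bitwise or of the numbers `f y`, `y ∈ L`. -/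
def orF (L : List ℕ) (f : ℕ → ℕ) : ℕ := L.foldr (fun y acc => (f y) ||| acc) 0

lemma testBit_orF (L : List ℕ) (f : ℕ → ℕ) (n : ℕ) :
    (orF L f).testBit n = true ↔ ∃ y ∈ L, (f y).testBit n = true := by
  induction L with
  | nil => simp [orF]
  | cons a L ih =>
    have h : orF (a :: L) f = (f a) ||| orF L f := rfl
    rw [h, Nat.testBit_lor, Bool.or_eq_true, ih]
    simp

/-- number of one bits of `M` in positions `s, …, s + 2^k - 1` -/
def cnt (M : ℕ) : ℕ → ℕ → ℕ
  | 0, s => (M >>> s) % 2
  | k + 1, s => cnt M k s + cnt M k (s + 2 ^ k)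

lemma cnt_eq (M k s : ℕ) :
    cnt M k s = ((Finset.Ico s (s + 2 ^ k)).filter (fun n => M.testBit n = true)).card := by
  induction k generalizing s with
  | zero =>
    have h : Finset.Ico s (s + 2 ^ 0) = {s} := by
      rw [pow_zero]; exact Nat.Ico_succ_singleton s
    rw [h, Finset.filter_singleton]
    unfold cnt
    by_cases hb : M.testBit s = true
    · rw [if_pos hb, card_singleton]
      rw [Nat.testBit_eq_decide_div_mod_eq] at hb
      simpa [Nat.shiftRight_eq_div_pow] using hb
    · rw [if_neg hb, card_empty]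
      rw [Nat.testBit_eq_decide_div_mod_eq] at hb
      simp only [decide_eq_true_eq] at hb
      rw [Nat.shiftRight_eq_div_pow]
      omega
  | succ k ih =>
    have h : Finset.Ico s (s + 2 ^ (k + 1)) =
        Finset.Ico s (s + 2 ^ k) ∪ Finset.Ico (s + 2 ^ k) (s + 2 ^ k + 2 ^ k) := by
      rw [Finset.Ico_union_Ico_eq_Ico (Nat.le_add_right _ _) (Nat.le_add_right _ _)]
      congr 1
      ring
    unfold cnt
    rw [ih, ih, h, Finset.filter_union, Finset.card_union_of_disjoint]
    apply Finset.disjoint_filter_filter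
    exact Finset.Ico_disjoint_Ico_consecutive _ _ _

/-- the set, as a list -/
def L : List ℕ :=
  (List.range 1201).filter (fun n =>
    (n % 2 == 1 && ((n / 2) % 15 == 0 || (n / 2) % 15 == 1 || (n / 2) % 15 == 2 ||
      (n / 2) % 15 == 5 || (n / 2) % 15 == 7 || (n / 2) % 15 == 10 || (n / 2) % 15 == 12)) ||
    n == 0 || n == 16 || n == 48 || n == 1140 || n == 1156 || n == 1188)

/-- the bit mask of the set -/
def sb : ℕ := 576470038015799281715325685850326198528401952959921807350841510561643055497778042434363228697172745674011370583671503812251044489334705435768096890485969062354100216305134107321167914705479869907257293699166724286790527595247335746264512852110859665311479208127075284950961200373527224225430890588583099750674364613297459384577496363021921404274579832953735211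

/-- the bit mask of `S + S` -/
def m1 : ℕ := 311461343930991804789971715855384061668852199582281626041348412104938385729147180311084064478741969900189345294691367470137581720445767326771597922823042853073574676135019458379999681727776678877039487387260372937232904653514617365033855771329655255697560899371280542935157353370788217656407238448434760624150908835905601997453426721540552343576899280850457947522412379994368525796661201613084366721614103700192994609351314339964511357394789038949796042305269590905273072723305287621870188652310444316418051302842376731872754004591052743769367439623415125755016832272234905387862827070370363390960488660843897888918278746980619340440767778052341820921489076599989624021105165966759813462919629402049544600140693517622655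

/-- the bit mask of `S + 2 S` -/
def m2 : ℕ := 167555864805769601937674542853858300424086210482880552886773660341298122383155008836260932595259884420581905769037704082579878327956975773737050976172179630138026467604882465458201144974033757653905510678794642029330233395924575312583255666175937679816398099331182375131937065142806654085904907388855090171666180886266446945024813425566722254063344047956594738709038995850451769165890716264702966024108819433805936964413994002247146857464965318522771117263725330510766128892096588318144793538859268872885832117511244821498253056061997553750890294254795394170905556091686445226939614419169070106924336743791734548711623609312599688533698661573302596769576754198602368938961909027021382631115496445926653441319462445737552746962240439796494866208563704418606289932508263030327050250005108033107938470606020099317537326258958596993610455975221688029052082816547658423476144049266382423186900847976310441348720286210227943163380759588476089496540554120234250610961967169685503968425632739151386242051778140205591744420151616170931149671652630102743843239743098193385889151703807667951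

lemma sb_eq : orF L (fun y => 1 <<< y) = sb := by decide +kernel
lemma m1_eq : orF L (fun y => sb <<< y) = m1 := by decide +kernel
lemma m2_eq : orF L (fun y => sb <<< (2 * y)) = m2 := by decide +kernel
lemma c1 : cnt m1 12 0 = 2368 := by decide +kernel
lemma c2 : cnt m2 12 0 = 2357 := by decide +kernel
lemma L_lt : ∀ x ∈ L, x < 1201 := by
  intro x hx
  have := (List.mem_filter.1 hx).1
  simpa using this

lemma mem_sb (x : ℕ) : sb.testBit x = true ↔ x ∈ L := by
  rw [← sb_eq, testBit_orF]
  constructor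
  · rintro ⟨y, hy, h⟩
    rw [Nat.one_shiftLeft, Nat.testBit_two_pow] at h
    simp only [decide_eq_true_eq] at h
    rwa [← h]
  · intro h
    exact ⟨x, h, by rw [Nat.one_shiftLeft, Nat.testBit_two_pow]; simp⟩

lemma mem_m1 (n : ℕ) : m1.testBit n = true ↔ ∃ x ∈ L, ∃ y ∈ L, x + y = n := by
  rw [← m1_eq, testBit_orF]
  constructor
  · rintro ⟨y, hy, h⟩
    rw [Nat.testBit_shiftLeft] at h
    simp only [Bool.and_eq_true, decide_eq_true_eq] at h
    exact ⟨n - y, (mem_sb _).1 h.2, y, hy, by omega⟩
  · rintro ⟨x, hx, y, hy, rfl⟩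
    refine ⟨y, hy, ?_⟩
    rw [Nat.testBit_shiftLeft]
    simp only [Bool.and_eq_true, decide_eq_true_eq]
    refine ⟨by omega, ?_⟩
    rw [Nat.add_sub_cancel]
    exact (mem_sb _).2 hx

lemma mem_m2 (n : ℕ) : m2.testBit n = true ↔ ∃ x ∈ L, ∃ y ∈ L, x + 2 * y = n := by
  rw [← m2_eq, testBit_orF]
  constructor
  · rintro ⟨y, hy, h⟩
    rw [Nat.testBit_shiftLeft] at h
    simp only [Bool.and_eq_true, decide_eq_true_eq] at h
    exact ⟨n - 2 * y, (mem_sb _).1 h.2, y, hy, by omega⟩
  · rintro ⟨x, hx, y, hy, rfl⟩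
    refine ⟨y, hy, ?_⟩
    rw [Nat.testBit_shiftLeft]
    simp only [Bool.and_eq_true, decide_eq_true_eq]
    refine ⟨by omega, ?_⟩
    rw [Nat.add_sub_cancel]
    exact (mem_sb _).2 hx

/-- the set -/
def S : Finset ℤ := (L.map (fun x => (x : ℤ))).toFinset

lemma mem_S (z : ℤ) : z ∈ S ↔ ∃ x ∈ L, (x : ℤ) = z := by simp [S, eq_comm]

lemma sum_eq : S + S = ((Finset.Ico 0 (0 + 2 ^ 12)).filter (fun n => m1.testBit n = true)).image
    (fun n : ℕ => (n : ℤ)) := by
  ext z
  simp only [Finset.mem_add, mem_S, Finset.mem_image, Finset.mem_filter, Finset.mem_Ico]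
  constructor
  · rintro ⟨_, ⟨x, hx, rfl⟩, _, ⟨y, hy, rfl⟩, rfl⟩
    refine ⟨x + y, ⟨⟨by omega, ?_⟩, (mem_m1 _).2 ⟨x, hx, y, hy, rfl⟩⟩, by push_cast; rfl⟩
    have h1 := L_lt x hx
    have h2 := L_lt y hy
    omega
  · rintro ⟨n, ⟨-, hn⟩, rfl⟩
    obtain ⟨x, hx, y, hy, rfl⟩ := (mem_m1 _).1 hn
    exact ⟨x, ⟨x, hx, rfl⟩, y, ⟨y, hy, rfl⟩, by push_cast; rfl⟩

lemma dil_eq : S + S.image (fun x => 2 * x) =
    ((Finset.Ico 0 (0 + 2 ^ 12)).filter (fun n => m2.testBit n = true)).image
    (fun n : ℕ => (n : ℤ)) := by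
  ext z
  simp only [Finset.mem_add, mem_S, Finset.mem_image, Finset.mem_filter, Finset.mem_Ico]
  constructor
  · rintro ⟨_, ⟨x, hx, rfl⟩, _, ⟨_, ⟨y, hy, rfl⟩, rfl⟩, rfl⟩
    refine ⟨x + 2 * y, ⟨⟨by omega, ?_⟩, (mem_m2 _).2 ⟨x, hx, y, hy, rfl⟩⟩, by push_cast; rfl⟩
    have h1 := L_lt x hx
    have h2 := L_lt y hy
    omega
  · rintro ⟨n, ⟨-, hn⟩, rfl⟩
    obtain ⟨x, hx, y, hy, rfl⟩ := (mem_m2 _).1 hn
    exact ⟨x, ⟨x, hx, rfl⟩, 2 * (y : ℤ), ⟨y, ⟨y, hy, rfl⟩, rfl⟩, by push_cast; rfl⟩

lemma card_sum : (S + S).card = 2368 := by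
  rw [sum_eq, Finset.card_image_of_injective _ Nat.cast_injective, ← cnt_eq, c1]

lemma card_dil : (S + S.image (fun x => 2 * x)).card = 2357 := by
  rw [dil_eq, Finset.card_image_of_injective _ Nat.cast_injective, ← cnt_eq, c2]

/-- the indicator function -/
noncomputable def ind (T : Finset ℤ) (z : ℤ) : ℝ := if z ∈ T then 1 else 0

lemma conv_ind (k : ℤ) (T : Finset ℤ) (i : ℤ) :
    conv k (ind T) i = ((T.filter (fun l => i - k * l ∈ T)).card : ℝ) := by
  unfold conv ind
  rw [tsum_eq_sum (s := T)]
  · rw [Finset.card_filter]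
    push_cast
    refine Finset.sum_congr rfl fun l hl => ?_
    simp [hl]
  · intro l hl
    simp [hl]

lemma conv_pos (k : ℤ) (T : Finset ℤ) (i : ℤ) (hi : i ∈ T + T.image (fun x => k * x)) :
    1 ≤ conv k (ind T) i := by
  rw [conv_ind]
  obtain ⟨x, hx, _, hy', rfl⟩ := Finset.mem_add.1 hi
  obtain ⟨y, hy, rfl⟩ := Finset.mem_image.1 hy'
  have h : 0 < (T.filter (fun l => x + k * y - k * l ∈ T)).card :=
    Finset.card_pos.2 ⟨y, Finset.mem_filter.2 ⟨hy, by simpa using hx⟩⟩
  exact_mod_cast h

lemma conv_zero (k : ℤ) (T : Finset ℤ) (i : ℤ) (hi : i ∉ T + T.image (fun x => k * x)) :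
    conv k (ind T) i = 0 := by
  rw [conv_ind, Nat.cast_eq_zero, Finset.card_eq_zero, Finset.filter_eq_empty_iff]
  intro y hy h
  exact hi (Finset.mem_add.2 ⟨i - k * y, h, k * y, Finset.mem_image.2 ⟨y, hy, rfl⟩, by ring⟩)

lemma conv_le (k : ℤ) (T : Finset ℤ) (i : ℤ) : conv k (ind T) i ≤ T.card := by
  rw [conv_ind]
  exact_mod_cast Finset.card_filter_le _ _

lemma dnorm_ge (k : ℤ) (T : Finset ℤ) :
    ((T + T.image (fun x => k * x)).card : ℝ≥0∞) ≤ dnorm k (ind T) := by
  unfold dnorm
  refine le_iInf₂ fun p hp => ?_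
  calc ((T + T.image (fun x => k * x)).card : ℝ≥0∞)
      = ∑ i ∈ T + T.image (fun x => k * x), (1 : ℝ≥0∞) := by simp
    _ ≤ ∑ i ∈ T + T.image (fun x => k * x), ENNReal.ofReal (conv k (ind T) i) ^ p := by
        refine Finset.sum_le_sum fun i hi => ?_
        have h1 : (1 : ℝ≥0∞) ≤ ENNReal.ofReal (conv k (ind T) i) := by
          rw [← ENNReal.ofReal_one]
          exact ENNReal.ofReal_le_ofReal (conv_pos k T i hi)
        exact ENNReal.one_le_rpow h1 hp.1
    _ ≤ _ := ENNReal.sum_le_tsum _

lemma dnorm_le (k : ℤ) (T : Finset ℤ) {p : ℝ} (hp : p ∈ Set.Ioo (0 : ℝ) 1) :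
    dnorm k (ind T) ≤
      ENNReal.ofReal ((T + T.image (fun x => k * x)).card * (T.card : ℝ) ^ p) := by
  unfold dnorm
  refine (iInf₂_le p hp).trans ?_
  rw [tsum_eq_sum (s := T + T.image (fun x => k * x))]
  · calc ∑ i ∈ T + T.image (fun x => k * x), ENNReal.ofReal (conv k (ind T) i) ^ p
        ≤ ∑ i ∈ T + T.image (fun x => k * x), ENNReal.ofReal ((T.card : ℝ) ^ p) := by
          refine Finset.sum_le_sum fun i _ => ?_
          have hT : (0 : ℝ) ≤ T.card := Nat.cast_nonneg _
          rw [← ENNReal.ofReal_rpow_of_nonneg hT hp.1.le]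
          exact ENNReal.rpow_le_rpow (ENNReal.ofReal_le_ofReal (conv_le k T i)) hp.1.le
      _ = _ := by
          rw [Finset.sum_const, nsmul_eq_mul, ENNReal.ofReal_mul (Nat.cast_nonneg _),
            ENNReal.ofReal_natCast]
  · intro i hi
    rw [conv_zero k T i hi, ENNReal.ofReal_zero, ENNReal.zero_rpow_of_pos hp.1]

/-- **Main theorem.** (1) There is a finite set `S` of integers with `|S + 2 S| < |S + S|`.
(2) It is not true that `‖α + α‖ ≤ ‖α + 2 α‖` for every fractional dilate `α : ℤ → [0, 1]`. -/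
theorem result :
    (∃ S : Finset ℤ, (S + S.image (fun x => 2 * x)).card < (S + S).card) ∧
    ¬ ∀ α : ℤ → ℝ, (∀ i, 0 ≤ α i ∧ α i ≤ 1) → Summable α → dnorm 1 α ≤ dnorm 2 α := by
  refine ⟨⟨S, by rw [card_sum, card_dil]; norm_num⟩, fun h => ?_⟩
  have h1 := h (ind S) (fun i => by unfold ind; split_ifs <;> norm_num)
    (summable_of_ne_finset_zero (s := S) fun b hb => by simp [ind, hb])
  have h2 := dnorm_ge 1 S
  simp only [one_mul, Finset.image_id'] at h2
  rw [card_sum] at h2
  have ht : Filter.Tendsto (fun p : ℝ => ((2357 : ℝ)) * (S.card : ℝ) ^ p) (𝓝[>] 0)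
      (𝓝 (2357 * (S.card : ℝ) ^ (0 : ℝ))) := by
    refine Filter.Tendsto.mono_left ?_ nhdsWithin_le_nhds
    have hS : (S.card : ℝ) ≠ 0 := by
      have : S.Nonempty := ⟨0, (mem_S 0).2 ⟨0, (mem_sb 0).1 (by decide +kernel), rfl⟩⟩
      exact_mod_cast (Finset.card_pos.2 this).ne'
    exact (tendsto_const_nhds.mul
      ((Real.continuousAt_const_rpow hS).tendsto))
  rw [Real.rpow_zero, mul_one] at ht
  have h3 : ∀ᶠ p : ℝ in 𝓝[>] 0, (2357 : ℝ) * (S.card : ℝ) ^ p < 2368 :=
    ht.eventually_lt_const (by norm_num)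
  have h4 : ∀ᶠ p : ℝ in 𝓝[>] 0, p ∈ Set.Ioo (0 : ℝ) 1 := Ioo_mem_nhdsGT one_pos
  obtain ⟨p, hp1, hp2⟩ := (h3.and h4).exists
  have h5 := dnorm_le 2 S hp2
  rw [card_dil] at h5
  have h6 : (2368 : ℝ≥0∞) ≤ ENNReal.ofReal (((2357 : ℕ) : ℝ) * (S.card : ℝ) ^ p) := by
    have := h2.trans (h1.trans h5)
    exact_mod_cast this
  have h7 : ENNReal.ofReal (((2357 : ℕ) : ℝ) * (S.card : ℝ) ^ p) < ENNReal.ofReal 2368 := by
    refine (ENNReal.ofReal_lt_ofReal_iff (by norm_num)).2 ?_
    exact_mod_cast hp1
  have h8 : ENNReal.ofReal 2368 = (2368 : ℝ≥0∞) := by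
    exact_mod_cast ENNReal.ofReal_natCast 2368
  rw [h8] at h7
  exact absurd h6 (not_le.2 h7)

end Pool.Agent.Results.MP_6c466c_co.SmallerDilateSum
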